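import Mathlib

/-!
# The group generated by the horizontal class transpositions of moduli up to `k`

For every `k > 3` the group generated by all horizontal class transpositions of moduli
`2, ..., k` is isomorphic to the symmetric group on `lcm(2, ..., k)` letters.

Proof: if a group contains all horizontal class transpositions of the moduli `m` and `n`, where
`4 ≤ n` and `n + 3 ≤ m`, then it contains those of modulus `N = lcm(m, n)`: on `{0, ..., N - 1}`
it acts primitively, it contains a three-cycle (a commutator of two elements with exactly one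
common moved point) and an odd permutation, so Jordan's theorem applies.
-/

set_option autoImplicit false

open Equiv Equiv.Perm

namespace Pool.Agent.Results.MP_8fd2f5_al.SymmetricGroup

/-- `g` is the horizontal class transposition of the residue classes of `r` and `s` modulo `m`:
it interchanges `r + j m` and `s + j m` for every integer `j` and fixes all other integers. -/
def IsHorizontalClassTransposition (m r s : ℕ) (g : Perm ℤ) : Prop :=
  (∀ j : ℤ, g (r + j * m) = s + j * m ∧ g (s + j * m) = r + j * m) ∧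
    ∀ n : ℤ, (∀ j : ℤ, n ≠ r + j * m ∧ n ≠ s + j * m) → g n = n

/-- The group `CT_(k)` generated by all horizontal class transpositions of moduli `2, ..., k`. -/
def CT (k : ℕ) : Subgroup (Perm ℤ) :=
  Subgroup.closure {g | ∃ m r s : ℕ, 2 ≤ m ∧ m ≤ k ∧ r < s ∧ s < m ∧
    IsHorizontalClassTransposition m r s g}

/-! ### Two permutations with exactly one common moved point -/

theorem isThreeCycle_commutator {α : Type*} [Fintype α] [DecidableEq α] (g h : Perm α) (x : α)
    (hg : g x ≠ x) (hh : h x ≠ x) (huniq : ∀ y, g y ≠ y → h y ≠ y → y = x) :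
    (g * h * g⁻¹ * h⁻¹).IsThreeCycle := by
  have hgh : ∀ y, h y ≠ y → y ≠ x → g y = y := fun y h1 h2 => by
    by_contra h3
    exact h2 (huniq y h3 h1)
  have hhg : ∀ y, g y ≠ y → y ≠ x → h y = y := fun y h1 h2 => by
    by_contra h3
    exact h2 (huniq y h1 h3)
  have hA : h (g x) = g x := hhg _ (fun h1 => hg (g.injective h1)) hg
  have hB : g (h x) = h x := hgh _ (fun h1 => hh (h.injective h1)) hh
  have hAB : g x ≠ h x := fun h1 => by
    rw [h1] at hA
    exact hh (h.injective hA)
  have key : g * h * g⁻¹ * h⁻¹ = swap x (h x) * swap x (g x) := by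
    ext y
    simp only [Perm.mul_apply]
    by_cases h1 : y = x
    · subst h1
      rw [swap_apply_left, swap_apply_of_ne_of_ne hg hAB]
      have h2 : h (h⁻¹ y) = y := by simp
      have h3 : h⁻¹ y ≠ y := fun h3 => hh (by rw [h3] at h2; exact h2)
      have h4 : g (h⁻¹ y) = h⁻¹ y := hgh _ (by rw [h2]; exact h3.symm) h3
      have h5 : g⁻¹ (h⁻¹ y) = h⁻¹ y := by
        rw [Perm.inv_eq_iff_eq, h4]
      rw [h5, h2]
    · by_cases h2 : y = g x
      · subst h2
        rw [swap_apply_right, swap_apply_left]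
        have h3 : h⁻¹ (g x) = g x := by rw [Perm.inv_eq_iff_eq, hA]
        rw [h3]
        simp [hB]
      · rw [swap_apply_of_ne_of_ne h1 h2]
        by_cases h3 : y = h x
        · subst h3
          rw [swap_apply_right]
          have h4 : h⁻¹ (h x) = x := by simp
          rw [h4]
          have h5 : g (g⁻¹ x) = x := by simp
          have h6 : g⁻¹ x ≠ x := fun h6 => hg (by rw [h6] at h5; exact h5)
          have h7 : h (g⁻¹ x) = g⁻¹ x := hhg _ (by rw [h5]; exact h6.symm) h6
          rw [h7, h5]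
        · rw [swap_apply_of_ne_of_ne h1 h3]
          by_cases h4 : h y = y
          · have h5 : h⁻¹ y = y := by rw [Perm.inv_eq_iff_eq, h4]
            rw [h5]
            by_cases h6 : g y = y
            · have h7 : g⁻¹ y = y := by rw [Perm.inv_eq_iff_eq, h6]
              rw [h7, h4, h6]
            · have h7 : g (g⁻¹ y) = y := by simp
              have h8 : g⁻¹ y ≠ x := fun h8 => h2 (by rw [← h7, h8])
              have h9 : h (g⁻¹ y) = g⁻¹ y := hhg _ (by
                rw [h7]
                intro h9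
                apply h6
                rw [← h9] at h7
                exact h7) h8
              rw [h9, h7]
          · have h5 : h (h⁻¹ y) = y := by simp
            have h6 : h⁻¹ y ≠ x := fun h6 => h3 (by rw [← h5, h6])
            have h7 : h (h⁻¹ y) ≠ h⁻¹ y := by
              rw [h5]
              intro h8
              apply h4
              rw [← h8] at h5
              exact h5
            have h8 : g⁻¹ (h⁻¹ y) = h⁻¹ y := by rw [Perm.inv_eq_iff_eq, hgh _ h7 h6]
            rw [h8, h5, hgh _ h4 h1]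
  rw [key]
  exact isThreeCycle_swap_mul_swap_same hh.symm hg.symm hAB.symm

/-! ### The transpositions of residue classes as maps -/

/-- interchange the residue classes of `a` and `b` modulo `m`, on the natural numbers -/
def tf (m a b n : ℕ) : ℕ :=
  if n % m = a then n - a + b else if n % m = b then n - b + a else n

theorem tf_cases (m a b n : ℕ) (ha : a < m) (hb : b < m) :
    (n % m = a ∧ tf m a b n = m * (n / m) + b) ∨
    (n % m = b ∧ tf m a b n = m * (n / m) + a) ∨
    (n % m ≠ a ∧ n % m ≠ b ∧ tf m a b n = n) := by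
  have h := Nat.div_add_mod n m
  unfold tf
  split_ifs with h1 h2
  · left; exact ⟨h1, by omega⟩
  · right; left; exact ⟨h2, by omega⟩
  · right; right; exact ⟨h1, h2, rfl⟩

theorem mod_of {m q a : ℕ} (ha : a < m) : (m * q + a) % m = a := by
  rw [Nat.mul_add_mod, Nat.mod_eq_of_lt ha]

theorem div_of {m q a : ℕ} (ha : a < m) : (m * q + a) / m = q := by
  rw [Nat.mul_add_div (by omega), Nat.div_eq_of_lt ha, add_zero]

theorem tf_left {m a b n : ℕ} (h : n % m = a) : tf m a b n = m * (n / m) + b := by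
  have h1 := Nat.div_add_mod n m
  unfold tf
  rw [if_pos h]
  omega

theorem tf_right {m a b n : ℕ} (h : n % m = b) : tf m a b n = m * (n / m) + a := by
  have h1 := Nat.div_add_mod n m
  unfold tf
  split_ifs <;> omega

theorem tf_fix {m a b n : ℕ} (h1 : n % m ≠ a) (h2 : n % m ≠ b) : tf m a b n = n := by
  unfold tf
  rw [if_neg h1, if_neg h2]

theorem tf_tf (m a b n : ℕ) (ha : a < m) (hb : b < m) : tf m a b (tf m a b n) = n := by
  have h := Nat.div_add_mod n m
  rcases tf_cases m a b n ha hb with ⟨h1, h2⟩ | ⟨h1, h2⟩ | ⟨h1, h2, h3⟩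
  · rw [h2, tf_right (mod_of hb), div_of hb]
    omega
  · rw [h2, tf_left (mod_of ha), div_of ha]
    omega
  · rw [h3, h3]

theorem tf_lt {N m a b n : ℕ} (hm : m ∣ N) (ha : a < m) (hb : b < m) (hn : n < N) :
    tf m a b n < N := by
  obtain ⟨c, rfl⟩ := hm
  have h3 : n / m < c := Nat.div_lt_of_lt_mul hn
  have h4 : m * (n / m) + m ≤ m * c := by
    calc m * (n / m) + m = m * (n / m + 1) := by ring
      _ ≤ m * c := Nat.mul_le_mul_left m h3
  rcases tf_cases m a b n ha hb with ⟨h1, h2⟩ | ⟨h1, h2⟩ | ⟨h1, h2, h3⟩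
  · omega
  · omega
  · omega

/-- interchange the residue classes of `a` and `b` modulo `m`, on `{0, ..., N - 1}` -/
def t (N m a b : ℕ) : Perm (Fin N) :=
  if h : m ∣ N ∧ a < m ∧ b < m then
    Function.Involutive.toPerm (fun x : Fin N => ⟨tf m a b x, tf_lt h.1 h.2.1 h.2.2 x.2⟩)
      (fun x => Fin.ext (tf_tf m a b x h.2.1 h.2.2))
  else 1

theorem t_val {N m a b : ℕ} (hm : m ∣ N) (ha : a < m) (hb : b < m) (x : Fin N) :
    (t N m a b x : ℕ) = tf m a b x := by
  unfold t
  rw [dif_pos ⟨hm, ha, hb⟩]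
  rfl

/-- interchange the residue classes of `a` and `b` modulo `m`, on the integers -/
def Tf (m a b : ℕ) (n : ℤ) : ℤ :=
  if n % m = a then n - a + b else if n % m = b then n - b + a else n

theorem Tf_Tf (m a b : ℕ) (ha : a < m) (hb : b < m) (n : ℤ) : Tf m a b (Tf m a b n) = n := by
  have h := Int.mul_ediv_add_emod n m
  have e1 : ∀ (c : ℕ), c < m → (n - n % m + c) % m = c := by
    intro c hc
    rw [show n - n % m + c = c + m * (n / m) by linarith, Int.add_mul_emod_self_left]
    exact Int.emod_eq_of_lt (by positivity) (by exact_mod_cast hc)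
  unfold Tf
  by_cases h1 : n % m = a
  · rw [if_pos h1]
    have e2 := e1 b hb
    rw [h1] at e2
    by_cases hab : b = a
    · subst hab
      rw [if_pos e2]; ring
    · rw [if_neg (by rw [e2]; exact_mod_cast hab), if_pos e2]; ring
  · rw [if_neg h1]
    by_cases h2 : n % m = b
    · rw [if_pos h2]
      have e2 := e1 a ha
      rw [h2] at e2
      rw [if_pos e2]; ring
    · rw [if_neg h2, if_neg h1, if_neg h2]

/-- the horizontal class transposition -/
def T (m a b : ℕ) : Perm ℤ :=
  if h : a < m ∧ b < m then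
    Function.Involutive.toPerm (Tf m a b) (Tf_Tf m a b h.1 h.2)
  else 1

theorem T_apply {m a b : ℕ} (ha : a < m) (hb : b < m) (n : ℤ) : T m a b n = Tf m a b n := by
  unfold T
  rw [dif_pos ⟨ha, hb⟩]
  rfl

theorem isHCT_T {m r s : ℕ} (hr : r < m) (hs : s < m) :
    IsHorizontalClassTransposition m r s (T m r s) := by
  have hmod : ∀ (c : ℕ) (j : ℤ), c < m → ((c : ℤ) + j * m) % m = c := by
    intro c j hc
    rw [Int.add_mul_emod_self_right]
    exact Int.emod_eq_of_lt (by positivity) (by exact_mod_cast hc)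
  refine ⟨fun j => ⟨?_, ?_⟩, fun n hn => ?_⟩
  · rw [T_apply hr hs, Tf, if_pos (hmod r j hr)]; ring
  · rw [T_apply hr hs, Tf]
    by_cases h : (s : ℤ) = r
    · rw [if_pos (by rw [hmod s j hs, h]), h]; ring
    · rw [if_neg (by rw [hmod s j hs]; exact h), if_pos (hmod s j hs)]; ring
  · rw [T_apply hr hs, Tf]
    have h := Int.mul_ediv_add_emod n m
    rw [if_neg, if_neg]
    · intro h1
      exact (hn (n / m)).2 (by rw [← h1]; linarith)
    · intro h1
      exact (hn (n / m)).1 (by rw [← h1]; linarith)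

theorem eq_T {m r s : ℕ} (hr : r < m) (hs : s < m) {g : Perm ℤ}
    (hg : IsHorizontalClassTransposition m r s g) : g = T m r s := by
  have hT := isHCT_T hr hs
  ext n
  by_cases h : ∀ j : ℤ, n ≠ r + j * m ∧ n ≠ s + j * m
  · rw [hg.2 n h, hT.2 n h]
  · push Not at h
    obtain ⟨j, hj⟩ := h
    by_cases h1 : n = r + j * m
    · rw [h1, (hg.1 j).1, (hT.1 j).1]
    · rw [hj h1, (hg.1 j).2, (hT.1 j).2]

/-! ### The embedding of the symmetric group on `{0, ..., N - 1}` -/

/-- permutations of `{0, ..., N - 1}` act on every interval `{q N, ..., q N + N - 1}` -/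
def Phi (N : ℕ) [NeZero N] : Perm (Fin N) →* Perm ℤ where
  toFun σ := (Int.divModEquiv N).trans (((Equiv.refl ℤ).prodCongr σ).trans
    (Int.divModEquiv N).symm)
  map_one' := by
    ext n
    simp only [Equiv.trans_apply, Equiv.prodCongr_apply, Perm.coe_one]
    exact (Int.divModEquiv N).symm_apply_apply n
  map_mul' σ τ := by
    apply Equiv.ext
    intro n
    show (Int.divModEquiv N).symm (Prod.map id (σ * τ) (Int.divModEquiv N n)) =
      (Int.divModEquiv N).symm (Prod.map id σ (Int.divModEquiv N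
        ((Int.divModEquiv N).symm (Prod.map id τ (Int.divModEquiv N n)))))
    rw [Equiv.apply_symm_apply]
    rfl

theorem Phi_apply (N : ℕ) [NeZero N] (σ : Perm (Fin N)) (n : ℤ) :
    Phi N σ n = n / N * N + (σ (Int.divModEquiv N n).2 : ℕ) := rfl

theorem val_snd (N : ℕ) [NeZero N] (n : ℤ) : (((Int.divModEquiv N n).2 : ℕ) : ℤ) = n % N := by
  have h := (Int.divModEquiv N).symm_apply_apply n
  rw [Int.divModEquiv_symm_apply, Int.divModEquiv_apply] at h
  have h2 := Int.ediv_mul_add_emod n N
  rw [Int.divModEquiv_apply]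
  linarith

theorem Phi_injective (N : ℕ) [NeZero N] : Function.Injective (Phi N) := by
  intro σ τ h
  ext x
  have h1 : Phi N σ (x : ℕ) = Phi N τ (x : ℕ) := by rw [h]
  have h2 : (Int.divModEquiv N (x : ℕ)).2 = x := by
    apply Fin.ext
    have h3 := val_snd N (x : ℕ)
    rw [Int.emod_eq_of_lt (by positivity) (by exact_mod_cast x.2)] at h3
    exact_mod_cast h3
  rw [Phi_apply, Phi_apply, h2] at h1
  exact_mod_cast add_left_cancel h1

theorem Phi_t {N m a b : ℕ} [NeZero N] (hm : m ∣ N) (ha : a < m) (hb : b < m) :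
    Phi N (t N m a b) = T m a b := by
  ext n
  rw [Phi_apply, t_val hm ha hb, T_apply ha hb]
  have hv := val_snd N n
  set v : ℕ := ((Int.divModEquiv N n).2 : ℕ) with hvdef
  have h2 := Int.ediv_mul_add_emod n N
  have h3 : ((v % m : ℕ) : ℤ) = n % m := by
    push_cast
    rw [hv]
    exact Int.emod_emod_of_dvd n (by exact_mod_cast hm)
  have h4 := Nat.div_add_mod v m
  have c1 : n % (m : ℤ) = (a : ℤ) ↔ v % m = a := by rw [← h3]; norm_cast
  have c2 : n % (m : ℤ) = (b : ℤ) ↔ v % m = b := by rw [← h3]; norm_cast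
  unfold tf Tf
  simp only [c1, c2]
  have hle : v % m ≤ v := Nat.mod_le _ _
  split_ifs with h5 h7
  · rw [h5] at hle
    push_cast [Nat.cast_sub hle]
    linarith
  · rw [h7] at hle
    push_cast [Nat.cast_sub hle]
    linarith
  · linarith

/-! ### Primitivity -/

section primitive

variable {N m n : ℕ} [NeZero N] (G : Subgroup (Perm (Fin N)))

theorem row_aux (hm : m ∣ N) (hm3 : 3 ≤ m) (hG : ∀ a b, a < m → b < m → t N m a b ∈ G)
    {B : Set (Fin N)} (hB : MulAction.IsBlock G B) {x y : Fin N} (hx : x ∈ B) (hy : y ∈ B)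
    (hxy : (x : ℕ) % m ≠ (y : ℕ) % m) (z : Fin N) (hz : (z : ℕ) / m = (y : ℕ) / m) : z ∈ B := by
  have hlt : ∀ k : ℕ, k % m < m := fun k => Nat.mod_lt _ (by omega)
  -- moving `w` by a permutation fixing `x`
  have move : ∀ (x w z : Fin N), x ∈ B → w ∈ B → (z : ℕ) / m = (w : ℕ) / m →
      (x : ℕ) % m ≠ (w : ℕ) % m → (x : ℕ) % m ≠ (z : ℕ) % m → z ∈ B := by
    intro x w z hx hw hzw h1 h2
    have hg := hG ((w : ℕ) % m) ((z : ℕ) % m) (hlt _) (hlt _)
    have e1 : t N m ((w : ℕ) % m) ((z : ℕ) % m) x = x := by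
      apply Fin.ext
      rw [t_val hm (hlt _) (hlt _), tf_fix h1 h2]
    have e2 : t N m ((w : ℕ) % m) ((z : ℕ) % m) w = z := by
      apply Fin.ext
      rw [t_val hm (hlt _) (hlt _), tf_left rfl, ← hzw]
      exact Nat.div_add_mod _ _
    have h3 := hB.smul_eq_of_mem (g := (⟨_, hg⟩ : G)) (a := x) hx (by
      show t N m ((w : ℕ) % m) ((z : ℕ) % m) x ∈ B
      rw [e1]; exact hx)
    rw [← h3]
    refine ⟨w, hw, ?_⟩
    exact e2
  by_cases h1 : (x : ℕ) % m = (z : ℕ) % m
  · -- choose a third residue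
    obtain ⟨r, hr, hr1, hr2⟩ : ∃ r, r < m ∧ r ≠ (x : ℕ) % m ∧ r ≠ (y : ℕ) % m := by
      by_contra hcon
      push Not at hcon
      have h0 := hcon 0 (by omega)
      have h1 := hcon 1 (by omega)
      have h2 := hcon 2 (by omega)
      omega
    obtain ⟨c, hc⟩ := hm
    have hylt : (y : ℕ) / m < c := Nat.div_lt_of_lt_mul (by rw [← hc]; exact y.2)
    have hwlt : m * ((y : ℕ) / m) + r < N := by
      have : m * ((y : ℕ) / m) + m ≤ m * c := by
        calc m * ((y : ℕ) / m) + m = m * ((y : ℕ) / m + 1) := by ring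
          _ ≤ m * c := Nat.mul_le_mul_left m hylt
      omega
    let w : Fin N := ⟨m * ((y : ℕ) / m) + r, hwlt⟩
    have hw1 : (w : ℕ) % m = r := mod_of hr
    have hw2 : (w : ℕ) / m = (y : ℕ) / m := div_of hr
    have hw : w ∈ B := move x y w hx hy hw2 hxy (by rw [hw1]; exact hr1.symm)
    exact move w y z hw hy hz (by rw [hw1]; exact hr2) (by rw [hw1, ← h1]; exact hr1)
  · exact move x y z hx hy hz hxy h1

theorem row_closed (hm : m ∣ N) (hm3 : 3 ≤ m) (hG : ∀ a b, a < m → b < m → t N m a b ∈ G)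
    {B : Set (Fin N)} (hB : MulAction.IsBlock G B) {x y : Fin N} (hx : x ∈ B) (hy : y ∈ B)
    (hxy : (x : ℕ) % m ≠ (y : ℕ) % m) (w : Fin N) (hw : w ∈ B) (z : Fin N)
    (hz : (z : ℕ) / m = (w : ℕ) / m) : z ∈ B := by
  by_cases h : (x : ℕ) % m = (w : ℕ) % m
  · exact row_aux G hm hm3 hG hB hy hw (by rw [← h]; exact hxy.symm) z hz
  · exact row_aux G hm hm3 hG hB hx hw h z hz

/-- if `B` is a union of rows of length `m`, then it contains two points which are not congruent
modulo `n` -/
theorem exists_consecutive (hm : m ∣ N) (hm3 : 3 ≤ m) (hn : 2 ≤ n) {B : Set (Fin N)}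
    (hB : ∀ w ∈ B, ∀ z : Fin N, (z : ℕ) / m = (w : ℕ) / m → z ∈ B) {x : Fin N} (hx : x ∈ B) :
    ∃ y ∈ B, ∃ z ∈ B, (y : ℕ) % n ≠ (z : ℕ) % n := by
  obtain ⟨c, hc⟩ := hm
  have hxlt : (x : ℕ) / m < c := Nat.div_lt_of_lt_mul (by rw [← hc]; exact x.2)
  have hle : m * ((x : ℕ) / m) + m ≤ N := by
    calc m * ((x : ℕ) / m) + m = m * ((x : ℕ) / m + 1) := by ring
      _ ≤ m * c := Nat.mul_le_mul_left m hxlt
      _ = N := hc.symm
  have h0 := hB x hx ⟨m * ((x : ℕ) / m) + 0, by omega⟩ (div_of (by omega))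
  have h1 := hB x hx ⟨m * ((x : ℕ) / m) + 1, by omega⟩ (div_of (by omega))
  refine ⟨_, h0, _, h1, ?_⟩
  intro h
  simp only [add_zero] at h
  have h2 : (m * ((x : ℕ) / m)) ≡ (m * ((x : ℕ) / m) + 1) [MOD n] := h
  have h3 := (Nat.modEq_iff_dvd' (by omega)).1 h2
  simp only [add_tsub_cancel_left, Nat.dvd_one] at h3
  omega

/-- neighbours are in a common row -/
theorem neighbours (hN : N = Nat.lcm m n) (i : ℕ) (hi : i + 1 < N) :
    (i + 1) / m = i / m ∨ (i + 1) / n = i / n := by
  by_contra h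
  push Not at h
  have h1 : m ∣ i + 1 := by
    by_contra h1
    exact h.1 (Nat.succ_div_of_not_dvd h1)
  have h2 : n ∣ i + 1 := by
    by_contra h2
    exact h.2 (Nat.succ_div_of_not_dvd h2)
  have h3 : N ∣ i + 1 := by rw [hN]; exact Nat.lcm_dvd h1 h2
  have := Nat.le_of_dvd (by omega) h3
  omega

theorem eq_univ_of_rows (hN : N = Nat.lcm m n) {B : Set (Fin N)} {x : Fin N} (hx : x ∈ B)
    (h1 : ∀ w ∈ B, ∀ z : Fin N, (z : ℕ) / m = (w : ℕ) / m → z ∈ B)
    (h2 : ∀ w ∈ B, ∀ z : Fin N, (z : ℕ) / n = (w : ℕ) / n → z ∈ B) : B = Set.univ := by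
  have step : ∀ (i : ℕ) (hi : i + 1 < N), ((⟨i, by omega⟩ : Fin N) ∈ B ↔ (⟨i + 1, hi⟩ : Fin N) ∈ B) := by
    intro i hi
    rcases neighbours hN i hi with h | h
    · exact ⟨fun hB => h1 _ hB _ h, fun hB => h1 _ hB _ h.symm⟩
    · exact ⟨fun hB => h2 _ hB _ h, fun hB => h2 _ hB _ h.symm⟩
  have h0 : ∀ (i : ℕ) (hi : i < N), ((⟨0, by omega⟩ : Fin N) ∈ B ↔ (⟨i, hi⟩ : Fin N) ∈ B) := by
    intro i
    induction i with
    | zero => intro hi; rfl
    | succ i ih => intro hi; exact (ih (by omega)).trans (step i hi)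
  rw [Set.eq_univ_iff_forall]
  intro z
  exact (h0 z z.2).1 ((h0 x x.2).2 hx)

theorem preprimitive (hN : N = Nat.lcm m n) (hm3 : 3 ≤ m) (hn3 : 3 ≤ n)
    (hGm : ∀ a b, a < m → b < m → t N m a b ∈ G) (hGn : ∀ a b, a < n → b < n → t N n a b ∈ G) :
    MulAction.IsPreprimitive G (Fin N) := by
  have hm : m ∣ N := by rw [hN]; exact Nat.dvd_lcm_left m n
  have hn : n ∣ N := by rw [hN]; exact Nat.dvd_lcm_right m n
  have htrans : MulAction.IsPretransitive G (Fin N) := by
    have h0 : 0 < N := Nat.pos_of_neZero N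
    rw [MulAction.isPretransitive_iff_base (⟨0, h0⟩ : Fin N)]
    have key : ∀ (i : ℕ) (hi : i < N), ∃ g : G, g • (⟨0, h0⟩ : Fin N) = ⟨i, hi⟩ := by
      intro i
      induction i with
      | zero => intro hi; exact ⟨1, one_smul _ _⟩
      | succ i ih =>
        intro hi
        obtain ⟨g, hg⟩ := ih (by omega)
        have gen : ∀ l : ℕ, l ∣ N → 3 ≤ l → (∀ a b, a < l → b < l → t N l a b ∈ G) →
            (i + 1) / l = i / l → ∃ g : G, g • (⟨0, h0⟩ : Fin N) = ⟨i + 1, hi⟩ := by
          intro l hl hl3 hGl h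
          have ha : i % l < l := Nat.mod_lt _ (by omega)
          have hb : (i + 1) % l < l := Nat.mod_lt _ (by omega)
          refine ⟨⟨_, hGl _ _ ha hb⟩ * g, ?_⟩
          rw [mul_smul, hg]
          apply Fin.ext
          show ((t N l (i % l) ((i + 1) % l) ⟨i, _⟩ : Fin N) : ℕ) = i + 1
          rw [t_val hl ha hb, tf_left rfl, ← h]
          exact Nat.div_add_mod _ _
        rcases neighbours hN i hi with h | h
        · exact gen m hm hm3 hGm h
        · exact gen n hn hn3 hGn h
    intro x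
    obtain ⟨g, hg⟩ := key x x.2
    exact ⟨g, hg⟩
  refine { toIsPretransitive := htrans, isTrivialBlock_of_isBlock := ?_ }
  intro B hB
  by_cases hsub : B.Subsingleton
  · exact Or.inl hsub
  · right
    rw [Set.not_subsingleton_iff] at hsub
    obtain ⟨x, hx, y, hy, hxy⟩ := hsub
    -- it suffices to find two points in different classes modulo `m` and modulo `n`
    have hall : ∀ (x y x' y' : Fin N), x ∈ B → y ∈ B → x' ∈ B → y' ∈ B →
        (x : ℕ) % m ≠ (y : ℕ) % m → (x' : ℕ) % n ≠ (y' : ℕ) % n → B = Set.univ := by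
      intro x y x' y' hx hy hx' hy' h1 h2
      exact eq_univ_of_rows hN hx
        (fun w hw z hz => row_closed G hm hm3 hGm hB hx hy h1 w hw z hz)
        (fun w hw z hz => row_closed G hn hn3 hGn hB hx' hy' h2 w hw z hz)
    by_cases h1 : (x : ℕ) % m = (y : ℕ) % m
    · have h2 : (x : ℕ) % n ≠ (y : ℕ) % n := by
        intro h2
        apply hxy
        have h3 : (x : ℕ) ≡ (y : ℕ) [MOD Nat.lcm m n] := by
          rw [Nat.modEq_iff_dvd]
          have h4 : (m : ℤ) ∣ (y : ℕ) - (x : ℕ) := Nat.modEq_iff_dvd.1 h1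
          have h5 : (n : ℤ) ∣ (y : ℕ) - (x : ℕ) := Nat.modEq_iff_dvd.1 h2
          have h6 := lcm_dvd h4 h5
          rwa [← Int.coe_lcm, Int.lcm_natCast_natCast] at h6
        rw [← hN] at h3
        exact Fin.ext (Nat.ModEq.eq_of_lt_of_lt h3 x.2 y.2)
      obtain ⟨x', hx', y', hy', h3⟩ := exists_consecutive (n := m) hn hn3 (by omega)
        (fun w hw z hz => row_closed G hn hn3 hGn hB hx hy h2 w hw z hz) hx
      exact hall x' y' x y hx' hy' hx hy h3 h2
    · obtain ⟨x', hx', y', hy', h3⟩ := exists_consecutive (n := n) hm hm3 (by omega)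
        (fun w hw z hz => row_closed G hm hm3 hGm hB hx hy h1 w hw z hz) hx
      exact hall x y x' y' hx hy hx' hy' h1 h3

end primitive

/-! ### The odd permutation -/

theorem sign_t (c m a b : ℕ) (ha : a < m) (hb : b < m) (hab : a ≠ b) (hc : Odd c) :
    sign (t (c * m) m a b) = -1 := by
  have h1 : t (c * m) m a b = finProdFinEquiv.permCongr
      (prodCongrRight (fun _ : Fin c => swap (⟨a, ha⟩ : Fin m) ⟨b, hb⟩)) := by
    ext x
    rw [t_val (Dvd.intro_left c rfl) ha hb]
    obtain ⟨⟨q, r⟩, rfl⟩ := finProdFinEquiv.surjective x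
    have h2 : ((finProdFinEquiv (q, r) : Fin (c * m)) : ℕ) = r + m * q := rfl
    have h3 : (finProdFinEquiv.permCongr
      (prodCongrRight (fun _ : Fin c => swap (⟨a, ha⟩ : Fin m) ⟨b, hb⟩)))
        (finProdFinEquiv (q, r)) = finProdFinEquiv (q, swap (⟨a, ha⟩ : Fin m) ⟨b, hb⟩ r) := by
      rw [Equiv.permCongr_apply, Equiv.symm_apply_apply]
      rfl
    rw [h3]
    have h4 : ((finProdFinEquiv (q, swap (⟨a, ha⟩ : Fin m) ⟨b, hb⟩ r) : Fin (c * m)) : ℕ) =
      (swap (⟨a, ha⟩ : Fin m) ⟨b, hb⟩ r : ℕ) + m * q := rfl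
    rw [h2, h4, add_comm (r : ℕ), add_comm _ (m * (q : ℕ))]
    by_cases h5 : r = ⟨a, ha⟩
    · subst h5
      rw [swap_apply_left, tf_left (mod_of ha), div_of ha]
    · by_cases h6 : r = ⟨b, hb⟩
      · subst h6
        rw [swap_apply_right, tf_right (mod_of hb), div_of hb]
      · rw [swap_apply_of_ne_of_ne h5 h6, tf_fix]
        · rw [mod_of r.2]
          exact fun h => h5 (Fin.ext h)
        · rw [mod_of r.2]
          exact fun h => h6 (Fin.ext h)
  rw [h1, sign_permCongr, sign_prodCongrRight]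
  rw [Finset.prod_const, sign_swap (fun h => hab (congrArg Fin.val h)), Finset.card_univ,
    Fintype.card_fin]
  exact hc.neg_one_pow

theorem odd_of_lcm {m n : ℕ} (hm : 0 < m) (hn : 0 < n) :
    (∃ c, Nat.lcm m n = c * m ∧ Odd c) ∨ (∃ c, Nat.lcm m n = c * n ∧ Odd c) := by
  have hg : 0 < Nat.gcd m n := Nat.gcd_pos_of_pos_left n hm
  have hc := Nat.coprime_div_gcd_div_gcd hg
  rcases Nat.even_or_odd (n / Nat.gcd m n) with h | h
  · right
    refine ⟨m / Nat.gcd m n, ?_, ?_⟩
    · rw [Nat.lcm, Nat.mul_comm, Nat.mul_div_assoc _ (Nat.gcd_dvd_left m n), mul_comm]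
    · rcases Nat.even_or_odd (m / Nat.gcd m n) with h2 | h2
      · exact absurd (Nat.dvd_gcd h2.two_dvd h.two_dvd) (by rw [hc]; norm_num)
      · exact h2
  · left
    refine ⟨n / Nat.gcd m n, ?_, h⟩
    rw [Nat.lcm, Nat.mul_div_assoc _ (Nat.gcd_dvd_right m n), mul_comm]

/-! ### The main step -/

theorem top_of {N m n : ℕ} [NeZero N] (G : Subgroup (Perm (Fin N))) (hN : N = Nat.lcm m n)
    (hn4 : 4 ≤ n) (hmn : n + 3 ≤ m)
    (hGm : ∀ a b, a < m → b < m → t N m a b ∈ G) (hGn : ∀ a b, a < n → b < n → t N n a b ∈ G) :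
    G = ⊤ := by
  have hm : m ∣ N := by rw [hN]; exact Nat.dvd_lcm_left m n
  have hn : n ∣ N := by rw [hN]; exact Nat.dvd_lcm_right m n
  have hprim := preprimitive G hN (by omega) (by omega) hGm hGn
  have hpos : 0 < N := Nat.pos_of_neZero N
  -- a three-cycle
  let σ := t N m 1 (n + 1)
  let ρ := t N n 0 1
  let D := σ * ρ * σ * ρ
  let τ := t N m 0 3
  have hσ : σ ∈ G := hGm _ _ (by omega) (by omega)
  have hρ : ρ ∈ G := hGn _ _ (by omega) (by omega)
  have hτ : τ ∈ G := hGm _ _ (by omega) (by omega)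
  have hD : D ∈ G := mul_mem (mul_mem (mul_mem hσ hρ) hσ) hρ
  have hDval : ∀ x : Fin N, (D x : ℕ) = tf m 1 (n + 1) (tf n 0 1 (tf m 1 (n + 1) (tf n 0 1 x))) := by
    intro x
    show (σ (ρ (σ (ρ x))) : ℕ) = _
    rw [t_val hm (by omega) (by omega), t_val hn (by omega) (by omega),
      t_val hm (by omega) (by omega), t_val hn (by omega) (by omega)]
  let x0 : Fin N := ⟨0, hpos⟩
  have h3 : (τ * D * τ⁻¹ * D⁻¹).IsThreeCycle := by
    apply isThreeCycle_commutator τ D x0
    · intro h
      have h1 := congrArg Fin.val h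
      rw [t_val hm (by omega) (by omega), tf_left (by simp [x0])] at h1
      simp [x0] at h1
    · intro h
      have h1 := congrArg Fin.val h
      rw [hDval] at h1
      have e1 : tf n 0 1 ((x0 : Fin N) : ℕ) = 1 := by
        rw [tf_left (by simp [x0])]; simp [x0]
      have e2 : tf m 1 (n + 1) 1 = n + 1 := by
        rw [tf_left (Nat.mod_eq_of_lt (by omega)), Nat.div_eq_of_lt (by omega)]; simp
      have e3 : tf n 0 1 (n + 1) = n := by
        rw [tf_right (by rw [Nat.add_mod_left]; exact Nat.mod_eq_of_lt (by omega))]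
        rw [Nat.add_div_left _ (by omega), Nat.div_eq_of_lt (by omega)]; simp
      have e4 : tf m 1 (n + 1) n = n := by
        apply tf_fix <;> rw [Nat.mod_eq_of_lt (by omega)] <;> omega
      rw [e1, e2, e3, e4] at h1
      simp [x0] at h1
      omega
    · intro y hy1 hy2
      by_contra hy0
      have hypos : 0 < (y : ℕ) := by
        rcases Nat.eq_zero_or_pos (y : ℕ) with h | h
        · exact absurd (Fin.ext h) hy0
        · exact h
      -- `y ≡ 0` or `y ≡ 3` modulo `m`
      have hym : (y : ℕ) % m = 0 ∨ (y : ℕ) % m = 3 := by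
        by_contra hcon
        push Not at hcon
        apply hy1
        apply Fin.ext
        rw [t_val hm (by omega) (by omega), tf_fix hcon.1 hcon.2]
      apply hy2
      apply Fin.ext
      rw [hDval]
      have hdm := Nat.div_add_mod (y : ℕ) m
      have hfixy : tf m 1 (n + 1) y = y := by apply tf_fix <;> omega
      have hdn := Nat.div_add_mod (y : ℕ) n
      by_cases h0 : (y : ℕ) % n = 0
      · -- then `y` is not divisible by `m`
        have hym3 : (y : ℕ) % m = 3 := by
          rcases hym with h | h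
          · exfalso
            have h1 : Nat.lcm m n ∣ (y : ℕ) :=
              Nat.lcm_dvd (Nat.dvd_of_mod_eq_zero h) (Nat.dvd_of_mod_eq_zero h0)
            rw [← hN] at h1
            have := Nat.le_of_dvd hypos h1
            omega
          · exact h
        have e1 : tf n 0 1 y = y + 1 := by rw [tf_left h0]; omega
        have e2 : ((y : ℕ) + 1) % m = 4 := by
          rw [show (y : ℕ) + 1 = m * ((y : ℕ) / m) + 4 by omega]
          exact mod_of (by omega)
        have e3 : tf m 1 (n + 1) (y + 1) = y + 1 := by apply tf_fix <;> omega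
        have e4 : tf n 0 1 (y + 1) = y := by
          rw [← e1]
          exact tf_tf _ _ _ _ (by omega) (by omega)
        rw [e1, e3, e4, hfixy]
      · by_cases h1 : (y : ℕ) % n = 1
        · have e1 : tf n 0 1 y = y - 1 := by rw [tf_right h1]; omega
          have e2 : tf m 1 (n + 1) (y - 1) = y - 1 := by
            rcases hym with h | h
            · have e5 : ((y : ℕ) - 1) % m = m - 1 := by
                have h6 : 0 < (y : ℕ) / m := by
                  rcases Nat.eq_zero_or_pos ((y : ℕ) / m) with h7 | h7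
                  · rw [h7] at hdm; omega
                  · exact h7
                obtain ⟨q, hq⟩ := Nat.exists_eq_succ_of_ne_zero h6.ne'
                rw [hq] at hdm
                rw [show (y : ℕ) - 1 = m * q + (m - 1) by
                  rw [← hdm, h, Nat.mul_succ]; omega]
                exact mod_of (by omega)
              apply tf_fix <;> omega
            · have e5 : ((y : ℕ) - 1) % m = 2 := by
                rw [show (y : ℕ) - 1 = m * ((y : ℕ) / m) + 2 by omega]
                exact mod_of (by omega)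
              apply tf_fix <;> omega
          have e4 : tf n 0 1 (y - 1) = y := by
            rw [← e1]
            exact tf_tf _ _ _ _ (by omega) (by omega)
          rw [e1, e2, e4, hfixy]
        · have e1 : tf n 0 1 y = y := tf_fix h0 h1
          rw [e1, hfixy, e1, hfixy]
  have h3mem : τ * D * τ⁻¹ * D⁻¹ ∈ G :=
    mul_mem (mul_mem (mul_mem hτ hD) (inv_mem hτ)) (inv_mem hD)
  have halt : alternatingGroup (Fin N) ≤ G :=
    alternatingGroup_le_of_isPreprimitive_of_isThreeCycle_mem hprim h3 h3mem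
  -- an odd permutation
  obtain ⟨g, hg, hodd⟩ : ∃ g ∈ G, sign g = -1 := by
    rcases odd_of_lcm (m := m) (n := n) (by omega) (by omega) with ⟨c, hc, hodd⟩ | ⟨c, hc, hodd⟩
    · rw [← hN] at hc
      subst hc
      exact ⟨_, hGm 0 1 (by omega) (by omega), sign_t c m 0 1 (by omega) (by omega) (by omega) hodd⟩
    · rw [← hN] at hc
      subst hc
      exact ⟨_, hGn 0 1 (by omega) (by omega), sign_t c n 0 1 (by omega) (by omega) (by omega) hodd⟩
  rw [eq_top_iff]
  intro h _
  rcases Int.units_eq_one_or (sign h) with h1 | h1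
  · exact halt (mem_alternatingGroup.2 h1)
  · have h2 : h * g ∈ G := halt (mem_alternatingGroup.2 (by rw [Perm.sign_mul, h1, hodd]; rfl))
    have h4 := mul_mem h2 (inv_mem hg)
    rwa [mul_inv_cancel_right] at h4

theorem step {H : Subgroup (Perm ℤ)} {m n : ℕ} (hn4 : 4 ≤ n) (hmn : n + 3 ≤ m)
    (hm : ∀ a b, a < m → b < m → T m a b ∈ H) (hn : ∀ a b, a < n → b < n → T n a b ∈ H) :
    ∀ a b, a < Nat.lcm m n → b < Nat.lcm m n → T (Nat.lcm m n) a b ∈ H := by
  intro a b ha hb
  haveI : NeZero (Nat.lcm m n) := ⟨by omega⟩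
  have h1 : H.comap (Phi (Nat.lcm m n)) = ⊤ := by
    apply top_of _ rfl hn4 hmn
    · intro a b ha hb
      rw [Subgroup.mem_comap, Phi_t (Nat.dvd_lcm_left m n) ha hb]
      exact hm a b ha hb
    · intro a b ha hb
      rw [Subgroup.mem_comap, Phi_t (Nat.dvd_lcm_right m n) ha hb]
      exact hn a b ha hb
  have h2 : t (Nat.lcm m n) (Nat.lcm m n) a b ∈ H.comap (Phi (Nat.lcm m n)) := by
    rw [h1]; exact Subgroup.mem_top _
  rwa [Subgroup.mem_comap, Phi_t dvd_rfl ha hb] at h2

theorem base {H : Subgroup (Perm ℤ)}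
    (hm : ∀ a b, a < 4 → b < 4 → T 4 a b ∈ H) (hn : ∀ a b, a < 3 → b < 3 → T 3 a b ∈ H) :
    ∀ a b, a < 12 → b < 12 → T 12 a b ∈ H := by
  intro a b ha hb
  have h1 : H.comap (Phi 12) = ⊤ := by
    have hm' : ∀ a b, a < 4 → b < 4 → t 12 4 a b ∈ H.comap (Phi 12) := by
      intro a b ha hb
      rw [Subgroup.mem_comap, Phi_t (by norm_num) ha hb]
      exact hm a b ha hb
    have hn' : ∀ a b, a < 3 → b < 3 → t 12 3 a b ∈ H.comap (Phi 12) := by
      intro a b ha hb
      rw [Subgroup.mem_comap, Phi_t (by norm_num) ha hb]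
      exact hn a b ha hb
    have hprim := preprimitive (H.comap (Phi 12)) (m := 4) (n := 3) (by decide) (by norm_num)
      (by norm_num) hm' hn'
    have hmem : (t 12 4 0 1 * t 12 3 0 1) ^ 3 ∈ H.comap (Phi 12) :=
      pow_mem (mul_mem (hm' 0 1 (by norm_num) (by norm_num)) (hn' 0 1 (by norm_num) (by norm_num))) 3
    have hswap : (t 12 4 0 1 * t 12 3 0 1) ^ 3 = swap 6 7 := by decide
    exact subgroup_eq_top_of_isPreprimitive_of_isSwap_mem hprim _ (by
      rw [hswap]; exact ⟨6, 7, by decide, rfl⟩) hmem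
  have h2 : t 12 12 a b ∈ H.comap (Phi 12) := by
    rw [h1]; exact Subgroup.mem_top _
  rwa [Subgroup.mem_comap, Phi_t dvd_rfl ha hb] at h2

theorem T_mem_CT {k m a b : ℕ} (hmk : m ≤ k) (ha : a < m) (hb : b < m) : T m a b ∈ CT k := by
  have key : ∀ a b, a < b → b < m → T m a b ∈ CT k := fun a b hab hb =>
    Subgroup.subset_closure ⟨m, a, b, by omega, hmk, hab, hb, isHCT_T (by omega) hb⟩
  rcases lt_trichotomy a b with h | h | h
  · exact key a b h hb
  · subst h
    have h1 : T m a a = 1 := by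
      ext n
      rw [T_apply ha ha, Tf]
      split_ifs <;> simp
    rw [h1]; exact one_mem _
  · have h1 : T m a b = T m b a := by
      apply eq_T hb ha
      have h2 := isHCT_T ha hb
      exact ⟨fun j => ⟨(h2.1 j).2, (h2.1 j).1⟩, fun n hn => h2.2 n fun j => ⟨(hn j).2, (hn j).1⟩⟩
    rw [h1]
    exact key b a h ha

theorem CT_mono {k l : ℕ} (h : k ≤ l) : CT k ≤ CT l := by
  apply Subgroup.closure_mono
  rintro g ⟨m, r, s, h1, h2, h3⟩
  exact ⟨m, r, s, h1, h2.trans h, h3⟩

/-- the least common multiple of `2, ..., k` -/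
def N (k : ℕ) : ℕ := (Finset.Icc 2 k).lcm id

theorem N_succ (k : ℕ) (hk : 1 ≤ k) : N (k + 1) = Nat.lcm (N k) (k + 1) := by
  unfold N
  have h : Finset.Icc 2 (k + 1) = insert (k + 1) (Finset.Icc 2 k) := by
    ext x
    simp only [Finset.mem_Icc, Finset.mem_insert]
    omega
  rw [h, Finset.lcm_insert]
  simp only [id]
  exact Nat.lcm_comm _ _

theorem N_pos (k : ℕ) : 0 < N k := by
  apply Nat.pos_of_ne_zero
  unfold N
  rw [Ne, Finset.lcm_eq_zero_iff]
  simp

theorem dvd_N {m k : ℕ} (h2 : 2 ≤ m) (hk : m ≤ k) : m ∣ N k :=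
  Finset.dvd_lcm (f := id) (Finset.mem_Icc.2 ⟨h2, hk⟩)

theorem N_large (k : ℕ) (hk : 4 ≤ k) : k + 4 ≤ N k := by
  have h1 : k * (k - 1) ∣ N k := by
    apply Nat.Coprime.mul_dvd_of_dvd_of_dvd _ (dvd_N (by omega) le_rfl)
      (dvd_N (by omega) (by omega))
    have := (Nat.coprime_self_add_right (m := k - 1) (n := 1)).2 (by simp)
    rw [Nat.sub_add_cancel (by omega)] at this
    exact this.symm
  have h2 := Nat.le_of_dvd (N_pos k) h1
  have h3 : k * 3 ≤ k * (k - 1) := Nat.mul_le_mul_left k (by omega)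
  omega

theorem all_T (k : ℕ) (hk : 4 ≤ k) : ∀ a b, a < N k → b < N k → T (N k) a b ∈ CT k := by
  induction k, hk using Nat.le_induction with
  | base =>
    have h : N 4 = 12 := by decide
    rw [h]
    exact base (fun a b ha hb => T_mem_CT le_rfl ha hb)
      (fun a b ha hb => T_mem_CT (by norm_num) ha hb)
  | succ k hk ih =>
    rw [N_succ k (by omega)]
    apply step (by omega) (by have := N_large k hk; omega)
    · intro a b ha hb
      exact CT_mono (by omega) (ih a b ha hb)
    · intro a b ha hb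
      exact T_mem_CT le_rfl ha hb

/-- For every `k > 3` the group generated by all horizontal class transpositions of moduli
`2, ..., k` is isomorphic to the symmetric group on `lcm(2, ..., k)` letters. -/
theorem result : ∀ k : ℕ, 3 < k →
    Nonempty (CT k ≃* Perm (Fin ((Finset.Icc 2 k).lcm id))) := by
  intro k hk
  haveI : NeZero (N k) := ⟨(N_pos k).ne'⟩
  have h1 : CT k = (Phi (N k)).range := by
    apply le_antisymm
    · rw [CT, Subgroup.closure_le]
      rintro g ⟨m, r, s, h2, hmk, hrs, hsm, hg⟩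
      rw [eq_T (by omega) hsm hg]
      exact ⟨t (N k) m r s, Phi_t (dvd_N h2 hmk) (by omega) hsm⟩
    · rw [MonoidHom.range_eq_map, ← closure_isSwap, MonoidHom.map_closure, Subgroup.closure_le]
      rintro _ ⟨g, ⟨x, y, hxy, rfl⟩, rfl⟩
      have h2 : swap x y = t (N k) (N k) x y := by
        ext z
        rw [t_val dvd_rfl x.2 y.2]
        have hz : (z : ℕ) % N k = z := Nat.mod_eq_of_lt z.2
        have hz0 : (z : ℕ) / N k = 0 := Nat.div_eq_of_lt z.2
        by_cases h3 : z = x
        · subst h3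
          rw [swap_apply_left, tf_left hz, hz0]
          simp
        · by_cases h4 : z = y
          · subst h4
            rw [swap_apply_right, tf_right hz, hz0]
            simp
          · rw [swap_apply_of_ne_of_ne h3 h4, tf_fix]
            · rw [hz]; exact fun h => h3 (Fin.ext h)
            · rw [hz]; exact fun h => h4 (Fin.ext h)
      rw [h2, Phi_t dvd_rfl x.2 y.2]
      exact all_T k hk x y x.2 y.2
  rw [h1]
  exact ⟨(MonoidHom.ofInjective (Phi_injective (N k))).symm⟩

end Pool.Agent.Results.MP_8fd2f5_al.SymmetricGroup
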